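import Pool.Agent.helper93.PX.Spec

set_option autoImplicit false

namespace Pool.Agent.PX

open Polynomial

theorem SG_listsum (g : ℕ → ℝ) (n : ℕ) :
    ((List.range n).map g).sum = ∑ m ∈ Finset.range n, g m := by
  induction n with
  | zero => simp
  | succ n ih => rw [List.range_succ, List.map_append, List.sum_append, ih, Finset.sum_range_succ]; simp

theorem SG_floor (x δ : ℝ) : |(((⌊x + δ⌋ - ⌊x⌋ : ℤ)) : ℝ) - δ| ≤ 1 := by
  have h1 := Int.floor_le (x + δ)
  have h2 := Int.lt_floor_add_one (x + δ)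
  have h3 := Int.floor_le x
  have h4 := Int.lt_floor_add_one x
  push_cast
  rw [abs_le]
  constructor <;> linarith

theorem SG (hCF : CF_stmt) : SG_stmt := by
  intro β hβ c hc
  obtain ⟨V, hV, hCF⟩ := hCF β hβ
  obtain ⟨hint, hβ1, -⟩ := hβ
  have hβ0 : 0 < β := by linarith
  set f := minpoly ℤ β with hf
  set d := f.natDegree with hd
  have hdpos : 0 < d := minpoly.natDegree_pos hint
  have hmonic : f.Monic := minpoly.monic hint
  set r0 : ℝ := ∑ i ∈ Finset.range d, β ^ i with hr0
  have hr00 : 0 ≤ r0 := Finset.sum_nonneg fun i _ => by positivity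
  refine ⟨(2 * r0 + 2) / (c - 1) + 1, ?_⟩
  intro h hh
  have hc1 : 0 < c - 1 := by linarith
  have hh1 : 2 * r0 + 2 < (c - 1) * h := by
    have : (2 * r0 + 2) / (c - 1) < h := by linarith
    rw [div_lt_iff₀ hc1] at this
    linarith
  have hh0 : 0 < h := by
    have : 0 ≤ (2 * r0 + 2) / (c - 1) := by positivity
    linarith
  set B : ℤ := ⌈V * (c * h) + 1⌉ with hB
  set val : (Fin d → ℤ) → ℝ := fun g => ∑ i : Fin d, (g i : ℝ) * β ^ (i : ℕ) with hval
  set G : Finset ℝ := ((Fintype.piFinset (fun _ : Fin d => Finset.Icc (-B) B)).image val).filter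
    (fun g => h < g ∧ g < c * h) with hG
  refine ⟨G, ?_, ?_⟩
  · intro g hg
    rw [hG, Finset.mem_filter, Finset.mem_image] at hg
    obtain ⟨⟨v, -, rfl⟩, h1, h2⟩ := hg
    refine ⟨?_, h1, h2⟩
    rw [hval]
    refine Subalgebra.sum_mem _ fun i _ => ?_
    refine Subalgebra.mul_mem _ ?_ (Subalgebra.pow_mem _ (Algebra.subset_adjoin (Set.mem_singleton β)) _)
    simp
  · intro y hy hy0
    rw [Algebra.adjoin_singleton_eq_range_aeval] at hy
    obtain ⟨P, rfl⟩ := hy
    have hy0' : 0 < aeval β P := hy0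
    obtain ⟨k₁, hk₁⟩ := hCF P hy0'
    -- the size of Y
    have hpos1 : 0 < h + r0 := by linarith
    have hpos2 : h + r0 < c * h - r0 := by nlinarith
    have hpos3 : 0 < c * h - r0 := by linarith
    set w : ℝ := 1 / (h + r0) - 1 / (c * h - r0) with hw
    have hw0 : 0 < w := by
      rw [hw]
      have := one_div_lt_one_div_of_lt hpos1 hpos2
      linarith
    obtain ⟨k₂, hk₂⟩ := pow_unbounded_of_one_lt (1 / (w * aeval β P)) hβ1
    refine ⟨max k₁ k₂, ?_⟩
    intro k hk
    have hkk₁ : k₁ ≤ k := le_trans (le_max_left _ _) hk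
    have hkk₂ : k₂ ≤ k := le_trans (le_max_right _ _) hk
    set Y : ℝ := β ^ k * aeval β P with hY
    have hY0 : 0 < Y := by positivity
    have hYw : 1 < Y * w := by
      have h1 : β ^ k₂ ≤ β ^ k := pow_le_pow_right₀ hβ1.le hkk₂
      have h2 : 1 / (w * aeval β P) < β ^ k := lt_of_lt_of_le hk₂ h1
      rw [div_lt_iff₀ (by positivity)] at h2
      rw [hY]
      linarith
    set n : ℕ := ⌊Y / (c * h - r0)⌋₊ + 1 with hn
    have hn1 : Y / (c * h - r0) < n := by
      rw [hn]
      push_cast
      exact Nat.lt_floor_add_one _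
    have hn2 : (n : ℝ) < Y / (h + r0) := by
      have h1 : (n : ℝ) ≤ Y / (c * h - r0) + 1 := by
        rw [hn]
        push_cast
        have := Nat.floor_le (show 0 ≤ Y / (c * h - r0) by positivity)
        linarith
      have h2 : Y * w = Y / (h + r0) - Y / (c * h - r0) := by
        rw [hw]
        ring
      linarith
    have hn0 : (0 : ℝ) < n := by
      have : 0 < Y / (c * h - r0) := by positivity
      linarith
    have hYn1 : h + r0 < Y / n := by
      rw [lt_div_iff₀ hpos1] at hn2
      rw [lt_div_iff₀ hn0]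
      linarith
    have hYn2 : Y / n < c * h - r0 := by
      rw [div_lt_iff₀ hpos3] at hn1
      rw [div_lt_iff₀ hn0]
      linarith
    set q : ℤ[X] := (X ^ k * P) %ₘ f with hq
    have hqdeg : q.natDegree < d := by
      rw [hd, hq]
      apply natDegree_modByMonic_lt _ hmonic
      intro h1
      rw [h1, natDegree_one] at hd
      omega
    have hqY : ∑ i ∈ Finset.range d, (q.coeff i : ℝ) * β ^ i = Y := by
      have h1 : aeval β q = aeval β (X ^ k * P) := by
        have h2 := congrArg (aeval β) (modByMonic_add_div (X ^ k * P) f)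
        rw [map_add, map_mul, hf, minpoly.aeval, zero_mul, add_zero, ← hf] at h2
        exact h2
      rw [map_mul, map_pow, aeval_X] at h1
      rw [hY, ← h1, aeval_eq_sum_range' hqdeg]
      refine Finset.sum_congr rfl fun i _ => ?_
      rw [zsmul_eq_mul]
    have hqc : ∀ i, |(q.coeff i : ℝ)| ≤ V * Y := fun i => hk₁ k hkk₁ i
    -- the pieces
    set a : ℕ → ℕ → ℤ := fun m i =>
      ⌊(m : ℝ) * (q.coeff i / n) + q.coeff i / n⌋ - ⌊(m : ℝ) * (q.coeff i / n)⌋ with ha
    have ha1 : ∀ m i, |(a m i : ℝ) - q.coeff i / n| ≤ 1 := fun m i => SG_floor _ _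
    have htel : ∀ i, ∑ m ∈ Finset.range n, (a m i : ℝ) = q.coeff i := by
      intro i
      have h1 : ∀ m ∈ Finset.range n, (a m i : ℝ)
          = (fun m : ℕ => ((⌊(m : ℝ) * (q.coeff i / n)⌋ : ℤ) : ℝ)) (m + 1)
            - (fun m : ℕ => ((⌊(m : ℝ) * (q.coeff i / n)⌋ : ℤ) : ℝ)) m := by
        intro m _
        rw [ha]
        simp only
        push_cast
        rw [add_mul, one_mul]
      rw [Finset.sum_congr rfl h1,
        Finset.sum_range_sub (fun m : ℕ => ((⌊(m : ℝ) * (q.coeff i / n)⌋ : ℤ) : ℝ)) n]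
      have h2 : (n : ℝ) * (q.coeff i / n) = (q.coeff i : ℝ) := by
        field_simp
      simp only [h2, Int.floor_intCast, Nat.cast_zero, zero_mul, Int.floor_zero, Int.cast_zero, sub_zero]
    set g : ℕ → ℝ := fun m => ∑ i ∈ Finset.range d, (a m i : ℝ) * β ^ i with hg
    have hgY : ∀ m, |g m - Y / n| ≤ r0 := by
      intro m
      have h1 : g m - Y / n = ∑ i ∈ Finset.range d, ((a m i : ℝ) - q.coeff i / n) * β ^ i := by
        rw [← hqY, hg, Finset.sum_div, ← Finset.sum_sub_distrib]
        refine Finset.sum_congr rfl fun i _ => ?_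
        ring
      rw [h1, hr0]
      refine (Finset.abs_sum_le_sum_abs _ _).trans (Finset.sum_le_sum fun i _ => ?_)
      rw [abs_mul, abs_of_pos (pow_pos hβ0 i)]
      have := mul_le_mul_of_nonneg_right (ha1 m i) (pow_pos hβ0 i).le
      linarith
    refine ⟨(List.range n).map g, ?_, ?_⟩
    · intro x hx
      rw [List.mem_map] at hx
      obtain ⟨m, -, rfl⟩ := hx
      rw [hG, Finset.mem_filter, Finset.mem_image]
      have hm := abs_le.1 (hgY m)
      refine ⟨⟨fun i => a m i, ?_, ?_⟩, by linarith, by linarith⟩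
      · rw [Fintype.mem_piFinset]
        intro i
        rw [Finset.mem_Icc, ← abs_le]
        have h1 := ha1 m i
        have h2 : |(a m i : ℝ)| ≤ V * (c * h) + 1 := by
          have h3 : |(a m i : ℝ)| ≤ |(q.coeff (i : ℕ) : ℝ) / n| + 1 := by
            have h4 : |(a m i : ℝ)| - |(q.coeff (i : ℕ) : ℝ) / n| ≤ |(a m i : ℝ) - (q.coeff (i : ℕ) : ℝ) / n| :=
              abs_sub_abs_le_abs_sub _ _
            linarith
          have h5 : |(q.coeff (i : ℕ) : ℝ) / n| ≤ V * (c * h) := by
            rw [abs_div, abs_of_pos hn0]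
            calc |(q.coeff (i : ℕ) : ℝ)| / n ≤ V * Y / n :=
                  div_le_div_of_nonneg_right (hqc i) hn0.le
              _ = V * (Y / n) := by ring
              _ ≤ V * (c * h) := mul_le_mul_of_nonneg_left (by linarith) hV.le
          linarith
        have h6 : |(a m i : ℝ)| ≤ (B : ℝ) := h2.trans (Int.le_ceil _)
        rw [← Int.cast_abs] at h6
        exact_mod_cast h6
      · rw [hval, hg]
        simp only
        rw [Finset.sum_range]
    · rw [SG_listsum, hg]
      rw [Finset.sum_comm]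
      refine Eq.trans ?_ hqY
      refine Finset.sum_congr rfl fun i _ => ?_
      rw [← Finset.sum_mul, htel]

end Pool.Agent.PX
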